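import Mathlib
import Pool.Agent.R335.RC.Final

set_option autoImplicit false

/-!
# `m ⇒ n` for all odd `n` and all `m ≥ 61 (n - 2)`

`HasRainbowCycle c k` (in `Pool/Agent/R335/RC/Basic.lean`) says that the edge colouring `c` of
the complete graph on the vertex set `V` contains a rainbow `k`-cycle: `k ≥ 3` and there is an
injective cyclic sequence `f : ZMod k → V` whose `k` edges `s(f i, f (i + 1))` receive pairwise
distinct colours.
-/

namespace Pool.Agent.Results.MP_cd4fdd_co.LinearImplication

open R335.RC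

/-- `m ⇒ n`: every colouring of every finite complete graph `K_N`, `N ≥ 3`, that contains a
rainbow `m`-cycle also contains a rainbow `n`-cycle. -/
def Forces (m n : ℕ) : Prop :=
  ∀ N : ℕ, 3 ≤ N → ∀ (C : Type) (c : Sym2 (Fin N) → C),
    HasRainbowCycle c m → HasRainbowCycle c n

/-- For all odd `n ≥ 3` and all `m ≥ 61 (n - 2)` we have `m ⇒ n`. -/
theorem result : ∀ m n : ℕ, Odd n → 3 ≤ n → 61 * (n - 2) ≤ m → Forces m n := by
  intro m n hn h3 hm N' _ C c hc
  by_contra hno
  obtain ⟨N, rfl⟩ : ∃ N, n = N + 2 := ⟨n - 2, by omega⟩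
  have hodd : N % 2 = 1 := by
    obtain ⟨k, hk⟩ := hn
    omega
  by_cases h1 : 3 ≤ N
  · exact general_case h1 hodd (by omega) hno hc
  · have h2 : N = 1 := by omega
    subst h2
    exact no_bad le_rfl hno m (by simp) (by omega) hc

end Pool.Agent.Results.MP_cd4fdd_co.LinearImplication
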